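import Pool.Agent.Lib.MP_6bc78b_nt.MS.L.Iface

/-! Project MS, part IIIa, module SPL: opening the Ramanujan sum. -/

set_option autoImplicit false

open Filter Topology ArithmeticFunction

namespace Pool.Agent.Lib.MP_6bc78b_nt.MS.L.H30

open Pool.Agent.Lib.MP_6bc78b_nt.MS

/-- The Ramanujan sum as a sum over all divisors of `m`. -/
theorem ramC_eq (m n : ℕ) (hm : m ≠ 0) :
    ramC m n = ∑ d ∈ m.divisors,
      (if d ∣ n then (d : ℝ) * ((ArithmeticFunction.moebius (m / d) : ℤ) : ℝ) else 0) := by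
  unfold ramC
  rw [← Finset.sum_filter]
  refine Finset.sum_congr ?_ fun _ _ => rfl
  ext d
  simp only [Nat.mem_divisors, Finset.mem_filter, ne_eq, Nat.gcd_eq_zero_iff, not_and]
  constructor
  · rintro ⟨h1, _⟩
    exact ⟨⟨h1.trans (Nat.gcd_dvd_left _ _), hm⟩, h1.trans (Nat.gcd_dvd_right _ _)⟩
  · rintro ⟨⟨h1, _⟩, h3⟩
    exact ⟨Nat.dvd_gcd h1 h3, fun h => absurd h hm⟩

/-- One divisor. -/
theorem one_div (α : ArithmeticFunction ℝ) (T : ℝ) (j m d : ℕ) (hm : m ≠ 0) (hd : d ∣ m) :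
    (∑' n : ℕ, if d ∣ n then α n * Fj T j ((n : ℝ) / m) else 0) =
      HH α T j d ((m : ℝ) / d) := by
  have hd0 : d ≠ 0 := fun h => hm (by rw [h] at hd; exact Nat.eq_zero_of_zero_dvd hd)
  have hinj : Function.Injective (fun k : ℕ => d * k) := fun a b h =>
    Nat.eq_of_mul_eq_mul_left (Nat.pos_of_ne_zero hd0) h
  have hsupp : Function.support (fun n : ℕ => if d ∣ n then α n * Fj T j ((n : ℝ) / m) else 0) ⊆
      Set.range (fun k : ℕ => d * k) := by
    intro n hn
    rw [Function.mem_support] at hn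
    have : d ∣ n := by
      by_contra h
      exact hn (by simp [h])
    obtain ⟨k, hk⟩ := this
    exact ⟨k, hk.symm⟩
  rw [← hinj.tsum_eq hsupp]
  unfold HH
  refine tsum_congr fun k => ?_
  have hdR : (d : ℝ) ≠ 0 := Nat.cast_ne_zero.mpr hd0
  have hmR : (m : ℝ) ≠ 0 := Nat.cast_ne_zero.mpr hm
  have : (((d * k : ℕ) : ℝ) / m) = (k : ℝ) / ((m : ℝ) / d) := by
    push_cast
    field_simp
  simp only [dvd_mul_right, if_true]
  rw [this]

/-- SPL: opening the Ramanujan sum. -/
theorem spl (h : GrwStatement) : SplStatement := by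
  intro th c1 c2 T j α hT hα
  unfold Psum
  refine Finset.sum_congr rfl fun m hm => ?_
  have hm1 : 1 ≤ m := (Finset.mem_Icc.mp hm).1
  have hm0 : m ≠ 0 := by omega
  have hmR : (0 : ℝ) < m := by exact_mod_cast hm1
  congr 1
  have hsum : Summable (fun n : ℕ => α n * Fj T j ((n : ℝ) / m)) := by
    obtain ⟨C, k, hC⟩ := hα
    exact h.2.2.2.2.2.1 (fun n => α n) C k hC T j m hT hmR
  have hterm : ∀ n : ℕ, α n * ramC m n * Real.log ((n : ℝ) / m) ^ j * GG T ((n : ℝ) / m) =
      ∑ d ∈ m.divisors, (d : ℝ) * ((ArithmeticFunction.moebius (m / d) : ℤ) : ℝ) *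
        (if d ∣ n then α n * Fj T j ((n : ℝ) / m) else 0) := by
    intro n
    rw [ramC_eq m n hm0, Finset.mul_sum, Finset.sum_mul, Finset.sum_mul]
    refine Finset.sum_congr rfl fun d _ => ?_
    unfold Fj
    split_ifs
    · ring
    · ring
  have hsd : ∀ d ∈ m.divisors, Summable (fun n : ℕ =>
      (d : ℝ) * ((ArithmeticFunction.moebius (m / d) : ℤ) : ℝ) *
        (if d ∣ n then α n * Fj T j ((n : ℝ) / m) else 0)) := by
    intro d _
    refine Summable.mul_left _ ?_
    refine Summable.of_norm_bounded hsum.norm fun n => ?_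
    split_ifs
    · exact le_rfl
    · rw [norm_zero]; exact norm_nonneg _
  rw [tsum_congr hterm, Summable.tsum_finsetSum hsd]
  refine Finset.sum_congr rfl fun d hd => ?_
  rw [tsum_mul_left, one_div α T j m d hm0 (Nat.dvd_of_mem_divisors hd)]

end Pool.Agent.Lib.MP_6bc78b_nt.MS.L.H30
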